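import Pool.Agent.N147.BN.Final
import Mathlib.Combinatorics.Additive.CauchyDavenport

/-!
# Clifford's theorem for line bundles on curves
-/

open scoped WithZero Pointwise
open WithZero Finset

set_option autoImplicit false
set_option linter.unusedSectionVars false

namespace Pool.Agent.J4.H16.BN

open Pool.Agent.Helper395.CS hiding genus map_mul map_inv
open Pool.Agent.Helper395.BC
open Pool.Agent.W525.BA
open Pool.Agent.N147.BN

variable {K : Type} [Field K] [Algebra ℂ K]

/-- `L (- i v)` -/
noncomputable def ls (L : LineBundle K) (v : Point K) : ℕ → LineBundle K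
  | 0 => L
  | i + 1 => lsub (ls L v i) v

theorem ls_degree (L : LineBundle K) (v : Point K) (i : ℕ) :
    (ls L v i).degree = L.degree - i := by
  induction i with
  | zero => simp [ls]
  | succ i ih => rw [ls, lsub_degree, ih]; push_cast; ring

theorem lsub_val_self (L : LineBundle K) (v : Point K) :
    v.val ((lsub L v).frame v : K) = v.val (L.frame v : K) * v.val (unif v) := by
  rw [lsub, val_lmul, val_linv, lpt_frame_self]
  rw [map_inv₀, inv_inv]

theorem lsub_val_ne (L : LineBundle K) {v w : Point K} (h : w ≠ v) :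
    w.val ((lsub L v).frame w : K) = w.val (L.frame w : K) := by
  rw [lsub, val_lmul, val_linv, lpt_frame_ne h]
  simp

theorem ls_val_self (L : LineBundle K) (v : Point K) (i : ℕ) :
    v.val ((ls L v i).frame v : K) = v.val (L.frame v : K) * v.val (unif v) ^ i := by
  induction i with
  | zero => simp [ls]
  | succ i ih => rw [ls, lsub_val_self, ih, pow_succ, mul_assoc]

theorem ls_val_ne (L : LineBundle K) {v w : Point K} (h : w ≠ v) (i : ℕ) :
    w.val ((ls L v i).frame w : K) = w.val (L.frame w : K) := by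
  induction i with
  | zero => simp [ls]
  | succ i ih => rw [ls, lsub_val_ne _ h, ih]

/-- the orders of the sections at `v` -/
noncomputable def jumps (L : LineBundle K) (v : Point K) (n : ℕ) : Finset ℕ :=
  (range n).filter fun i => Module.finrank ℂ (H0 (ls L v (i + 1))) < Module.finrank ℂ (H0 (ls L v i))

theorem H0_ls_le (L : LineBundle K) (v : Point K) (i : ℕ) : H0 (ls L v (i + 1)) ≤ H0 (ls L v i) := by
  intro s hs
  exact ((mem_H0_lsub (ls L v i) v s).1 hs).1

theorem card_jumps (hK : IsCurve K) (hg : genus K ≠ 0) (L : LineBundle K) (v : Point K) (n : ℕ) :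
    Module.finrank ℂ (H0 L) = (jumps L v n).card + Module.finrank ℂ (H0 (ls L v n)) := by
  induction n with
  | zero =>
    rw [jumps, range_zero, filter_empty, card_empty, zero_add]
    rfl
  | succ n ih =>
    rw [ih, jumps, jumps, range_add_one, filter_insert]
    have h1 := h0_lsub hK hg (ls L v n) v
    have f1 := H0_finite hK hg (ls L v n)
    have h2 := Submodule.finrank_mono (H0_ls_le L v n)
    change _ ≤ Module.finrank ℂ (H0 (ls L v (n + 1))) + 1 at h1
    by_cases h : Module.finrank ℂ (H0 (ls L v (n + 1))) < Module.finrank ℂ (H0 (ls L v n))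
    · rw [if_pos h, card_insert_of_notMem (by simp)]
      omega
    · rw [if_neg h]
      omega

theorem mul_mem_ls (M N : LineBundle K) (v : Point K) (i j : ℕ) {s t : K}
    (hs : s ∈ H0 (ls M v i)) (ht : t ∈ H0 (ls N v j)) : s * t ∈ H0 (ls (lmul M N) v (i + j)) := by
  rw [mem_H0] at hs ht ⊢
  intro w
  rw [map_mul]
  refine (mul_le_mul' (hs w) (ht w)).trans (le_of_eq ?_)
  by_cases hw : w = v
  · subst hw
    rw [ls_val_self, ls_val_self, ls_val_self, val_lmul, pow_add]
    exact mul_mul_mul_comm _ _ _ _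
  · rw [ls_val_ne _ hw, ls_val_ne _ hw, ls_val_ne _ hw, val_lmul]

theorem jumps_add (hK : IsCurve K) (hg : genus K ≠ 0) (M N : LineBundle K) (v : Point K)
    (m n : ℕ) : jumps M v m + jumps N v n ⊆ jumps (lmul M N) v (m + n) := by
  intro k hk
  obtain ⟨i, hi, j, hj, rfl⟩ := mem_add.1 hk
  rw [jumps, mem_filter, mem_range] at hi hj
  obtain ⟨s, hs, hs'⟩ := exists_generator (ls M v i) v hi.2
  obtain ⟨t, ht, ht'⟩ := exists_generator (ls N v j) v hj.2
  rw [jumps, mem_filter, mem_range]
  refine ⟨by omega, ?_⟩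
  have h1 := mul_mem_ls M N v i j hs ht
  have h2 : s * t ∉ H0 (ls (lmul M N) v (i + j + 1)) := by
    intro h
    have h3 := ((mem_H0_lsub (ls (lmul M N) v (i + j)) v (s * t)).1 h).2
    rw [map_mul, hs', ht', ls_val_self, ls_val_self, ls_val_self, val_lmul, pow_add,
      mul_mul_mul_comm] at h3
    exact lt_irrefl _ h3
  have f1 := H0_finite hK hg (ls (lmul M N) v (i + j))
  apply Submodule.finrank_lt_finrank_of_lt
  exact lt_of_le_of_ne (H0_ls_le _ v _) fun h => h2 (by rw [h]; exact h1)

/-- the Hopf inequality -/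
theorem hopf (hK : IsCurve K) (hg : genus K ≠ 0) (M N : LineBundle K)
    (hM : 0 < Module.finrank ℂ (H0 M)) (hN : 0 < Module.finrank ℂ (H0 N)) :
    Module.finrank ℂ (H0 M) + Module.finrank ℂ (H0 N) ≤
      Module.finrank ℂ (H0 (lmul M N)) + 1 := by
  obtain ⟨v⟩ := point_nonempty hK
  have key : ∀ L : LineBundle K, Module.finrank ℂ (H0 L) =
      (jumps L v (L.degree.toNat + 1)).card := by
    intro L
    have h1 := card_jumps hK hg L v (L.degree.toNat + 1)
    have h2 : H0 (ls L v (L.degree.toNat + 1)) = ⊥ := by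
      apply H0_eq_bot hK
      rw [ls_degree]
      have := Int.self_le_toNat L.degree
      push_cast
      omega
    rw [h2, finrank_bot, add_zero] at h1
    exact h1
  have h1 := card_jumps hK hg (lmul M N) v (M.degree.toNat + 1 + (N.degree.toNat + 1))
  have h2 := card_le_card (jumps_add hK hg M N v (M.degree.toNat + 1) (N.degree.toNat + 1))
  rw [key M] at hM ⊢
  rw [key N] at hN ⊢
  have h3 := cauchy_davenport_add_of_linearOrder_isCancelAdd (card_pos.1 hM) (card_pos.1 hN)
  omega

/-- **Clifford's theorem.** -/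
theorem clifford (hK : IsCurve K) (hg : genus K ≠ 0) (L : LineBundle K) (h0 : 0 ≤ L.degree)
    (h1 : L.degree ≤ 2 * genus K - 2) :
    (2 * Module.finrank ℂ (H0 L) : ℤ) ≤ L.degree + 2 := by
  have hrr := (rrL hK hg L).2
  rcases Nat.eq_zero_or_pos (Module.finrank ℂ (H0 (lmul (can hK hg) (linv L)))) with h2 | h2
  · rw [h2] at hrr
    push_cast at hrr
    omega
  rcases Nat.eq_zero_or_pos (Module.finrank ℂ (H0 L)) with h3 | h3
  · rw [h3]
    push_cast
    omega
  have h4 := hopf hK hg L (lmul (can hK hg) (linv L)) h3 h2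
  have h5 : H0 (lmul L (lmul (can hK hg) (linv L))) = H0 (can hK hg) := by
    apply H0_congr_val
    intro v
    rw [val_lmul, val_lmul, val_linv]
    have h6 : v.val (L.frame v : K) ≠ 0 := (frame_pos L v).ne'
    rw [mul_comm, mul_assoc, inv_mul_cancel₀ h6, mul_one]
  rw [h5, can_h0] at h4
  omega

end Pool.Agent.J4.H16.BN
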