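import Pool.Agent.J4.H16.BN.Sep

/-!
# The containments and the numerical conditions
-/

open scoped WithZero Pointwise
open WithZero Finset

set_option autoImplicit false
set_option linter.unusedSectionVars false

namespace Pool.Agent.J4.H16.BN

open Pool.Agent.Helper395.CS hiding genus map_mul map_inv
open Pool.Agent.Helper395.BC
open Pool.Agent.W525.BA
open Pool.Agent.N147.BN

variable {K : Type} [Field K] [Algebra ℂ K]

theorem Range.step {g r d : ℕ} (h : Range g r d) (hr : 1 ≤ r) (hrd : 2 * r ≤ d) :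
    Range g (r - 1) (d - 2) := by
  rcases h with h | h
  · left
    refine lt_of_le_of_lt (Nat.choose_le_choose 2 ?_) h
    omega
  · right
    have e : d - 2 - 2 * (r - 1) + 2 = d - 2 * r + 2 := by omega
    rw [e]
    have := Nat.mul_le_mul_left (d - 2 * r + 2) (show d - 2 ≤ d by omega)
    omega

/-- iterating the single step -/
theorem descend' (hK : IsCurve K) (hg : genus K ≠ 0) {L : LineBundle K} {r d : ℕ}
    (hd : L.degree = d) (hrd : 2 * r ≤ d) (hL : r + 1 ≤ Module.finrank ℂ (H0 L))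
    (hgd : Range (genus K) r d) (k : ℕ) (hk : k + 1 ≤ r) :
    ∃ M : LineBundle K, M.degree = ((d - 2 * k : ℕ) : ℤ) ∧
      r - k + 1 ≤ Module.finrank ℂ (H0 M) ∧ Range (genus K) (r - k) (d - 2 * k) := by
  induction k with
  | zero => exact ⟨L, by simpa using hd, hL, by simpa using hgd⟩
  | succ k ih =>
    obtain ⟨M, hM, hM', hR⟩ := ih (by omega)
    obtain ⟨N, hN, hN'⟩ := drop' hK hg (r := r - k) (d := d - 2 * k) (by omega) hM (by omega)
      hM' hR
    refine ⟨N, ?_, by omega, ?_⟩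
    · rw [hN, hM]
      omega
    · have h1 := hR.step (by omega) (by omega)
      have e1 : r - k - 1 = r - (k + 1) := by omega
      have e2 : d - 2 * k - 2 = d - 2 * (k + 1) := by omega
      rwa [e1, e2] at h1

theorem seven_le {g r d : ℕ} (hr : 3 ≤ r) (hd : 2 * r ≤ d) (h : Range g r d) : 7 ≤ g := by
  rcases h with h | h
  · have h1 : (3 + 1).choose 2 ≤ (d - r + 1).choose 2 := Nat.choose_le_choose 2 (by omega)
    have h2 : (3 + 1).choose 2 = 6 := by decide
    omega
  · have h1 : 2 * 6 ≤ (d - 2 * r + 2) * d := Nat.mul_le_mul (by omega) (by omega)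
    omega

/-- the conditions on the numbers -/
theorem conditions {g r d : ℕ} (hr : 3 ≤ r) (hd : 2 * r ≤ d) (h : Range g r d) :
    (d : ℤ) ≤ g - 1 ∧ (d : ℤ) - 2 * r + 4 ≤ g - 1 ∧
      (g : ℤ) - (r + 1) * (g - d + r) < 0 ∧
      (g : ℤ) - (2 + 1) * (g - ((d : ℤ) - 2 * r + 4) + 2) < 0 ∧
      (d : ℤ) - 2 * r + 4 < (d : ℤ) - 2 * r + 2 + ((r : ℤ) + 3) / 2 := by
  obtain ⟨c, rfl⟩ : ∃ c, d = 2 * r + c := ⟨d - 2 * r, by omega⟩
  have key : 4 * (r + c) < 3 * g ∧ 2 * r + c + 1 ≤ g ∧ c + 5 ≤ g ∧ 3 * c + 6 < 2 * g := by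
    rcases h with h | h
    · have e : 2 * r + c - r + 1 = r + c + 1 := by omega
      rw [e, Nat.choose_two_right] at h
      have e2 : r + c + 1 - 1 = r + c := by omega
      rw [e2] at h
      have h1 : (r + c + 1) * (r + c) < 2 * g := by omega
      have h2 : 4 * (r + c) ≤ (r + c + 1) * (r + c) := Nat.mul_le_mul_right _ (by omega)
      refine ⟨by omega, by omega, by omega, by omega⟩
    · have e : 2 * r + c - 2 * r + 2 = c + 2 := by omega
      rw [e] at h
      have h1 : 6 * (c + 2) ≤ (c + 2) * (2 * r + c) := by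
        rw [mul_comm]
        exact Nat.mul_le_mul_left _ (by omega)
      have h2 : 2 * (2 * r + c) ≤ (c + 2) * (2 * r + c) := Nat.mul_le_mul_right _ (by omega)
      have h3 : 8 * (r + c) ≤ 3 * ((c + 2) * (2 * r + c)) := by nlinarith
      refine ⟨by omega, by omega, by omega, by omega⟩
  obtain ⟨k1, k2, k3, k4⟩ := key
  have z1 : (4 : ℤ) * (r + c) < 3 * g := by exact_mod_cast k1
  have z2 : (2 : ℤ) * r + c + 1 ≤ g := by exact_mod_cast k2
  have z3 : (3 : ℤ) ≤ r := by exact_mod_cast hr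
  have z4 : (0 : ℤ) ≤ c := Nat.cast_nonneg c
  push_cast
  refine ⟨by linarith, by omega, ?_, by omega, by omega⟩
  have z5 : (4 : ℤ) * (g - (r + c)) ≤ (r + 1) * (g - (r + c)) :=
    mul_le_mul_of_nonneg_right (by linarith) (by linarith)
  have z6 : (g : ℤ) - (2 * r + c) + r = g - (r + c) := by ring
  rw [z6]
  linarith

/-- curves with linear series -/
theorem exists_curve {g r d : ℕ} (hg : 7 ≤ g) (hd : 2 * r ≤ d) :
    ∃ (K : Type) (_ : Field K) (_ : Algebra ℂ K), IsCurve K ∧ genus K = g ∧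
      ∃ L : LineBundle K, L.degree = (d : ℤ) ∧ (r : ℤ) + 1 ≤ Module.finrank ℂ (H0 L) := by
  obtain ⟨K, i1, i2, hK, hgen, hL⟩ := exists_hyp g hg
  obtain ⟨L, h1, h2⟩ := hL r
  obtain ⟨M, h3, h4⟩ := add_points hK (by omega) L (d - 2 * r)
  refine ⟨K, i1, i2, hK, hgen, M, ?_, ?_⟩
  · rw [h3, h1]
    omega
  · omega

end Pool.Agent.J4.H16.BN
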