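import Pool.Agent.J4.H16.BN.Clif

/-!
# Linear series which are composed with a map of degree at least two
-/

open scoped WithZero Pointwise
open WithZero Finset

set_option autoImplicit false
set_option linter.unusedSectionVars false

namespace Pool.Agent.J4.H16.BN

open Pool.Agent.Helper395.CS hiding genus map_mul map_inv
open Pool.Agent.Helper395.BC
open Pool.Agent.W525.BA
open Pool.Agent.N147.BN

variable {K : Type} [Field K] [Algebra ℂ K] {L : LineBundle K} {D : Finset (Point K)} {u : K}

/-- **The second bound for separating series**, from Clifford's theorem for `L ^ N`. -/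
theorem sep_clifford (h : Nm L D u) (hK : IsCurve K) (hg : genus K ≠ 0) (hu : u ≠ 0)
    (hsep : Sep L D) (hd : L.degree = D.card) {r : ℕ}
    (hr : r + 1 ≤ Module.finrank ℂ (H0 L)) {N : ℕ} (hN0 : 1 ≤ N) (hN1 : N + r ≤ D.card + 1)
    (hN2 : (N * D.card : ℤ) ≤ 2 * genus K - 2) : 2 * r + N ≤ D.card + 1 := by
  classical
  -- the defects
  set x : ℕ → ℕ := fun n => D.card - h.w hK (n + 1) with hx
  have hmono : ∀ n, h.w hK n ≤ h.w hK (n + 1) := fun n =>
    Submodule.finrank_mono (h.range_mono hK n)
  have hstep : ∀ n, x n = 0 ∨ x (n + 1) + 1 ≤ x n := by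
    intro n
    have h1 := grow (LinearMap.range (h.ev hK (n + 1))) (LinearMap.range (h.ev hK (n + 2)))
      (LinearMap.range (h.ev hK 1)) (h.one_mem_range hK _) (h.range_mono hK _)
      (fun x hx y hy => h.mul_mem_range hK _ hx hy) (fun i j hij => by
        obtain ⟨s, hs, hs1, hs2⟩ := hsep i.1 i.2 j.1 j.2 fun hh => hij (Subtype.ext hh)
        refine ⟨_, ⟨⟨s, (mem_pw_one s).2 hs⟩, rfl⟩, ?_, ?_⟩
        · rw [Nm.ev_apply, resHom_eq_zero_iff]
          exact hs1
        · rw [Nm.ev_apply, Ne, resHom_eq_zero_iff]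
          change ¬ j.1.val s < 1
          rw [hs2]
          exact lt_irrefl _)
    rcases h1 with h1 | h1
    · left
      have h2 : h.w hK (n + 1) = D.card := by
        rw [Nm.w, h1, finrank_top, Module.finrank_fintype_fun_eq_card, Fintype.card_coe]
      simp only [hx]
      omega
    · have h2 := h.w_le hK (n + 2)
      have h3 : h.w hK (n + 1) + 1 ≤ h.w hK (n + 2) := h1
      simp only [hx]
      right
      have e : n + 1 + 1 = n + 2 := rfl
      rw [e]
      omega
  have hx0 : x 0 ≤ D.card - r := by
    have h1 := h.w_add hK hg hu 0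
    have h2 : Module.finrank ℂ (H0 (pw L 0)) = 1 := (H0_one hK).2
    have h3 : H0 (pw L 1) = H0 L := by
      ext f
      exact mem_pw_one f
    rw [h2, zero_add, h3] at h1
    simp only [hx]
    rw [zero_add]
    omega
  have hxn : ∀ n, x n ≤ D.card - r - n := by
    intro n
    induction n with
    | zero => simpa using hx0
    | succ n ih =>
      rcases hstep n with h1 | h1
      · have h2 := hmono (n + 1)
        have h3 : x (n + 1) ≤ x n := by
          simp only [hx]
          have e : n + 1 + 1 = n + 2 := rfl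
          rw [e] at h2 ⊢
          omega
        omega
      · omega
  -- the Hilbert function
  have ha : ∀ N : ℕ, Module.finrank ℂ (H0 (pw L N)) + ∑ n ∈ range N, x n = 1 + N * D.card := by
    intro N
    induction N with
    | zero =>
      rw [sum_range_zero]
      have h2 : Module.finrank ℂ (H0 (pw L 0)) = 1 := (H0_one hK).2
      omega
    | succ N ih =>
      rw [sum_range_succ, ← h.w_add hK hg hu N]
      have h4 := h.w_le hK (N + 1)
      have h5 : x N = D.card - h.w hK (N + 1) := rfl
      have h6 : (N + 1) * D.card = N * D.card + D.card := by ring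
      omega
  have hsum : ∀ M : ℕ, M + r ≤ D.card + 1 →
      (2 * ∑ n ∈ range M, x n : ℤ) ≤ 2 * M * (D.card - r) - M * (M - 1) := by
    intro M
    induction M with
    | zero => intro _; simp
    | succ M ih =>
      intro hM
      have h1 := ih (by omega)
      have h2 := hxn M
      have h3 : (x M : ℤ) ≤ D.card - r - M := by omega
      rw [sum_range_succ]
      push_cast at h1 ⊢
      nlinarith
  have h1 := hsum N hN1
  have h2 := ha N
  have h3 : (Module.finrank ℂ (H0 (pw L N)) : ℤ) + ∑ n ∈ range N, (x n : ℤ) =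
      1 + N * D.card := by exact_mod_cast h2
  have h4 := clifford hK hg (pw L N) (by rw [pw_degree, hd]; positivity)
    (by rw [pw_degree, hd]; exact hN2)
  rw [pw_degree, hd] at h4
  have h5 : (N : ℤ) * (2 * r + N) ≤ N * (D.card + 1) := by
    push_cast at h1 h4
    nlinarith
  have h6 : (0 : ℤ) < N := by exact_mod_cast hN0
  have h7 := le_of_mul_le_mul_left h5 h6
  exact_mod_cast h7

/-- a complete linear series which does not allow a step gives a separating one -/
theorem exists_sep (hK : IsCurve K) (hg : genus K ≠ 0) {L : LineBundle K} {r d : ℕ} (hr : 2 ≤ r)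
    (hd : L.degree = d) (hL : r + 1 ≤ Module.finrank ℂ (H0 L))
    (hcon : ¬ ∃ M : LineBundle K, M.degree = L.degree - 2 ∧ r ≤ Module.finrank ℂ (H0 M)) :
    ∃ (L' : LineBundle K) (D : Finset (Point K)) (u : K), Nm L' D u ∧ u ≠ 0 ∧ Sep L' D ∧
      L'.degree = D.card ∧ D.card = d ∧ 0 < D.card ∧ r + 1 ≤ Module.finrank ℂ (H0 L') := by
  classical
  push Not at hcon
  have h1 : ∀ p q : Point K, Module.finrank ℂ (H0 (lsub (lsub L p) q)) < r := by
    intro p q
    apply hcon
    rw [lsub_degree, lsub_degree]
    ring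
  have hb1 : ∀ p, Module.finrank ℂ (H0 (lsub L p)) = r := by
    intro p
    have h2 := h0_lsub hK hg L p
    have h3 := h0_lsub hK hg (lsub L p) p
    have h4 := h1 p p
    omega
  have hb : ∀ v, Module.finrank ℂ (H0 (lsub L v)) < Module.finrank ℂ (H0 L) := by
    intro v
    rw [hb1]
    omega
  obtain ⟨s, hs, D, u, hsL, hu, hNm⟩ := exists_Nm hK L hb (fun v => by rw [hb1]; omega)
  set L' := lmul L (linv (lprin hK (Units.mk0 s hs))) with hL'
  have hpos : ∀ v : Point K, 0 < v.val s := fun v => zero_lt_iff.2 (v.val_ne_zero hs)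
  have hfr : ∀ v : Point K, v.val (L'.frame v : K) = v.val (L.frame v : K) * (v.val s)⁻¹ := by
    intro v
    rw [hL', val_lmul, val_linv]
    rfl
  have hdeg : L'.degree = L.degree := by
    rw [hL', lmul_degree, linv_degree, lprin_degree]
    ring
  have hcard := hNm.degree_eq hK hu
  have hcard' : D.card = d := by
    rw [hdeg, hd] at hcard
    exact_mod_cast hcard.symm
  have hfin : Module.finrank ℂ (H0 L') = Module.finrank ℂ (H0 L) :=
    h0_scale s hs fun v => by
      rw [hfr, mul_assoc, inv_mul_cancel₀ (hpos v).ne', mul_one]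
  have hdpos : 0 < D.card := by
    by_contra h0
    have h0' : L.degree = 0 := by rw [hd]; have : d = 0 := by omega
                                  rw [this]; rfl
    obtain ⟨p⟩ := point_nonempty hK
    have h2 : H0 (lsub L p) = ⊥ := H0_eq_bot hK (by rw [lsub_degree, h0']; norm_num)
    have h3 := hb1 p
    rw [h2, finrank_bot] at h3
    omega
  have hsep : Sep L' D := by
    intro v hv w hw hvw
    obtain ⟨σ, hσ, hσw⟩ := exists_generator (lsub L v) w (by rw [hb1]; exact h1 v w)
    have hσ' := (mem_H0_lsub L v σ).1 hσ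
    -- the frame of `L(-v)` at `w`
    have hfw : w.val ((lsub L v).frame w : K) = w.val (L.frame w : K) :=
      lsub_val_ne L fun h => hvw h.symm
    have hmul : ∀ x : Point K, x.val (σ * s⁻¹) = x.val σ * (x.val s)⁻¹ := by
      intro x
      rw [map_mul, map_inv₀]
    refine ⟨σ * s⁻¹, ?_, ?_, ?_⟩
    · rw [mem_H0]
      intro x
      rw [hmul, hfr]
      exact mul_le_mul_left (hσ'.1 x) _
    · rw [hmul, ← hNm.frame v hv, hfr]
      exact mul_lt_mul_of_pos_right hσ'.2 (inv_pos.2 (hpos v))
    · rw [hmul, hσw, hfw, ← hfr, hNm.frame w hw]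
  exact ⟨L', D, u, hNm, hu, hsep, by rw [hcard], hcard', hdpos, by rw [hfin]; exact hL⟩

/-- The range of the theorem: `L` is composed with a map of degree at least two. -/
def Range (g r d : ℕ) : Prop := (d - r + 1).choose 2 < g ∨ (d - 2 * r + 2) * d + 2 ≤ 2 * g

/-- **The single step.** -/
theorem drop' (hK : IsCurve K) (hg : genus K ≠ 0) {L : LineBundle K} {r d : ℕ} (hr : 2 ≤ r)
    (hd : L.degree = d) (hrd : 2 * r ≤ d) (hL : r + 1 ≤ Module.finrank ℂ (H0 L))
    (hgd : Range (genus K) r d) :
    ∃ M : LineBundle K, M.degree = L.degree - 2 ∧ r ≤ Module.finrank ℂ (H0 M) := by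
  by_contra hcon
  obtain ⟨L', D, u, h1, h2, h3, h4, h5, h6, h7⟩ := exists_sep hK hg hr hd hL hcon
  rcases hgd with hgd | hgd
  · have hle := h1.genus_le hK hg h2 h3 h4 h6 h7
    rw [h5] at hle
    omega
  · have h8 := sep_clifford h1 hK hg h2 h3 h4 h7 (N := d - 2 * r + 2) (by omega)
      (by omega) (by
        rw [h5]
        have h9 : (((d - 2 * r + 2) * d + 2 : ℕ) : ℤ) ≤ ((2 * genus K : ℕ) : ℤ) := by
          exact_mod_cast hgd
        push_cast at h9 ⊢
        linarith)
    omega

end Pool.Agent.J4.H16.BN
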